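import Pool.Agent.L0h98.RF.Def

/-!
# The flow of a simple graph for any orientation of the edges
-/

set_option autoImplicit false

namespace Pool.Agent.L0h39.RF

open Finset
open Pool.Agent.L0h98.RF

lemma fib {V E : Type} [Fintype V] [Fintype E] [DecidableEq V] (s t : E → V) (f : V → V → ℤ)
    (v : V) : ∑ e ∈ univ.filter (fun e => s e = v), f (s e) (t e) =
      ∑ w, f v w * ((univ.filter (fun e : E => s e = v ∧ t e = w)).card : ℤ) := by
  rw [← Finset.sum_fiberwise (univ.filter (fun e => s e = v)) t (fun e => f (s e) (t e))]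
  refine Finset.sum_congr rfl fun w _ => ?_
  rw [Finset.filter_filter]
  have h1 : ∀ e ∈ univ.filter (fun e : E => s e = v ∧ t e = w), f (s e) (t e) = f v w := by
    intro e he
    rw [Finset.mem_filter] at he
    rw [he.2.1, he.2.2]
  rw [Finset.sum_congr rfl h1, Finset.sum_const, nsmul_eq_mul, mul_comm]

theorem t_CHR : S_CHR := by
  classical
  intro V _ _ G hS E _ s t hadj hex
  obtain ⟨f, hanti, hval, hzero, hcons⟩ := hS
  refine ⟨fun e => f (s e) (t e), ?_, fun e => hval _ _ (hadj e)⟩
  intro v
  have h1 := fib s t f v
  have h2 : ∑ e ∈ univ.filter (fun e => t e = v), f (s e) (t e) =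
      - ∑ w, f v w * ((univ.filter (fun e : E => t e = v ∧ s e = w)).card : ℤ) := by
    rw [← fib t s f v, ← Finset.sum_neg_distrib]
    exact Finset.sum_congr rfl fun e _ => hanti _ _
  have h3 : ∀ w, f v w * ((univ.filter (fun e : E => s e = v ∧ t e = w)).card : ℤ) +
      f v w * ((univ.filter (fun e : E => t e = v ∧ s e = w)).card : ℤ) = f v w := by
    intro w
    by_cases hvw : G.Adj v w
    · rw [← mul_add]
      have h4 : (univ.filter (fun e : E => s e = v ∧ t e = w)).card +
          (univ.filter (fun e : E => t e = v ∧ s e = w)).card = 1 := by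
        rw [← Finset.card_union_of_disjoint]
        · rw [Finset.card_eq_one]
          obtain ⟨e, he, huniq⟩ := hex v w hvw
          refine ⟨e, ?_⟩
          ext e'
          rw [Finset.mem_union, Finset.mem_filter, Finset.mem_filter, Finset.mem_singleton]
          constructor
          · rintro (⟨-, h⟩ | ⟨-, h⟩)
            · exact huniq e' (Or.inl h)
            · exact huniq e' (Or.inr ⟨h.2, h.1⟩)
          · rintro rfl
            rcases he with h | h
            · exact Or.inl ⟨mem_univ _, h⟩
            · exact Or.inr ⟨mem_univ _, h.2, h.1⟩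
        · rw [Finset.disjoint_left]
          intro e he he'
          rw [Finset.mem_filter] at he he'
          exact hvw.ne (he'.2.1 ▸ he.2.2 ▸ rfl)
      have h5 : ((univ.filter (fun e : E => s e = v ∧ t e = w)).card : ℤ) +
          ((univ.filter (fun e : E => t e = v ∧ s e = w)).card : ℤ) = 1 := by
        exact_mod_cast h4
      rw [h5, mul_one]
    · rw [hzero v w hvw]
      simp
  have h6 : ∑ w, f v w * ((univ.filter (fun e : E => s e = v ∧ t e = w)).card : ℤ) +
      ∑ w, f v w * ((univ.filter (fun e : E => t e = v ∧ s e = w)).card : ℤ) = 0 := by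
    rw [← Finset.sum_add_distrib, Finset.sum_congr rfl fun w _ => h3 w]
    exact hcons v
  have e1 : ∑ e ∈ univ.filter (fun e => s e = v), f (s e) (t e) =
      ∑ e ∈ univ.filter (fun e => t e = v), f (s e) (t e) := by
    rw [h1, h2]
    linarith
  exact e1

end Pool.Agent.L0h39.RF
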