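import Pool.Agent.L0h98.RF.Def

/-!
# Numberings of the half-edges at the vertices
-/

set_option autoImplicit false

namespace Pool.Agent.L0h39.RF

open Finset
open Pool.Agent.L0h98.RF
open Pool.Agent.H160R2.HF

theorem t_LAB : S_LAB := by
  classical
  intro V E _ _ _ _ B
  let en : E × Bool → V := fun x => if x.2 then B.h x.1 else B.t x.1
  let H : V → Finset (E × Bool) := fun v => univ.filter fun x => en x = v
  have hcard : ∀ v, (H v).card = B.deg univ v := by
    intro v
    have h1 : H v = ((univ.filter fun e => B.t e = v).image fun e => (e, false)) ∪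
        ((univ.filter fun e => B.h e = v).image fun e => (e, true)) := by
      ext ⟨e, b⟩
      simp only [H, en, mem_filter, mem_univ, true_and, mem_union, mem_image, Prod.mk.injEq]
      cases b
      · simp
      · simp
    rw [h1, Finset.card_union_of_disjoint, Finset.card_image_of_injective,
      Finset.card_image_of_injective]
    · rfl
    · intro a b h
      exact (Prod.mk.injEq _ _ _ _ ▸ h).1
    · intro a b h
      exact (Prod.mk.injEq _ _ _ _ ▸ h).1
    · rw [Finset.disjoint_left]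
      intro x hx hx'
      rw [mem_image] at hx hx'
      obtain ⟨e, -, rfl⟩ := hx
      obtain ⟨e', -, h⟩ := hx'
      simp at h
  let φ : ∀ v, H v ≃ Fin (H v).card := fun v => (H v).equivFin
  have hmem : ∀ x, x ∈ H (en x) := fun x => by simp [H]
  refine ⟨fun x => (φ (en x) ⟨x, hmem x⟩ : ℕ), ?_⟩
  have key : ∀ v x (hx : x ∈ H v), (φ (en x) ⟨x, hmem x⟩ : ℕ) = (φ v ⟨x, hx⟩ : ℕ) := by
    intro v x hx
    have h1 : en x = v := by simpa [H] using hx
    subst h1
    rfl
  intro v j hj
  rw [← hcard v] at hj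
  refine ⟨((φ v).symm ⟨j, hj⟩ : E × Bool), ⟨?_, ?_⟩, ?_⟩
  · have h2 := ((φ v).symm ⟨j, hj⟩).2
    exact (Finset.mem_filter.1 h2).2
  · show (φ (en ((φ v).symm ⟨j, hj⟩ : E × Bool)) ⟨((φ v).symm ⟨j, hj⟩ : E × Bool), hmem _⟩ : ℕ) = j
    rw [key v _ ((φ v).symm ⟨j, hj⟩).2]
    simp
  · rintro y ⟨hy1, hy2⟩
    have hy : y ∈ H v := by
      simp only [H, mem_filter, mem_univ, true_and]
      exact hy1
    have hy3 : (φ v ⟨y, hy⟩ : ℕ) = j := by
      rw [← key v y hy]
      exact hy2
    have hy4 : φ v ⟨y, hy⟩ = ⟨j, hj⟩ := Fin.ext hy3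
    have hy5 : (φ v).symm ⟨j, hj⟩ = ⟨y, hy⟩ := by rw [← hy4, Equiv.symm_apply_apply]
    rw [hy5]

end Pool.Agent.L0h39.RF
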